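import Pool.Agent.H11.UC.Loop
import Pool.Agent.H63.UC.MD1
import Pool.Agent.H69.Car.Inj

set_option autoImplicit false
open Set Metric Filter Topology

/-! `A1`: `reg U` is a Jordan domain with boundary the boundary edges, charts exist. -/

namespace Pool.Agent.H11.UC

open Pool.Agent.H7.UC
open Pool.Agent.H83.Lo (mob mob_identity norm_mob_lt)

lemma mob_den_ne' {w z : ℂ} (hw : ‖w‖ < 1) (hz : ‖z‖ ≤ 1) : 1 - (starRingEnd ℂ) w * z ≠ 0 := by
  intro h
  have h1 : (starRingEnd ℂ) w * z = 1 := (sub_eq_zero.1 h).symm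
  have h2 : ‖(starRingEnd ℂ) w * z‖ = 1 := by rw [h1, norm_one]
  rw [norm_mul, Complex.norm_conj] at h2
  nlinarith [norm_nonneg w, norm_nonneg z]

lemma norm_mob_le {w z : ℂ} (hw : ‖w‖ < 1) (hz : ‖z‖ ≤ 1) : ‖mob w z‖ ≤ 1 := by
  have h1 := mob_identity w z
  have h2 : 0 < ‖1 - (starRingEnd ℂ) w * z‖ := norm_pos_iff.2 (mob_den_ne' hw hz)
  unfold mob
  rw [norm_div, div_le_one h2]
  have h3 : 0 ≤ (1 - ‖w‖ ^ 2) * (1 - ‖z‖ ^ 2) := by
    apply mul_nonneg <;> nlinarith [norm_nonneg w, norm_nonneg z]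
  have h4 : ‖z - w‖ ^ 2 ≤ ‖1 - (starRingEnd ℂ) w * z‖ ^ 2 := by nlinarith
  exact (sq_le_sq₀ (norm_nonneg _) h2.le).1 h4

lemma mob_mob {a z : ℂ} (ha : ‖a‖ < 1) (hz : ‖z‖ ≤ 1) : mob a (mob (-a) z) = z := by
  have h1 := mob_den_ne' (w := -a) (by rwa [norm_neg]) hz
  have h2 := mob_den_ne' ha (norm_mob_le (w := -a) (by rwa [norm_neg]) hz)
  unfold mob at h2 ⊢
  rw [map_neg] at h1 h2 ⊢
  rw [div_eq_iff h2]
  have hq : (z - -a) / (1 - -(starRingEnd ℂ) a * z) * (1 - -(starRingEnd ℂ) a * z) = z - -a :=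
    div_mul_cancel₀ _ h1
  linear_combination hq

lemma mob_zero' (a : ℂ) : mob (-a) 0 = a := by simp [mob]

theorem _root_.Pool.Agent.H7.UC.DiscChart.recentre {D : Set ℂ} {Φ : ℂ → ℂ} (h : DiscChart D Φ)
    {a : ℂ} (ha : ‖a‖ < 1) : DiscChart D (fun w => Φ (mob (-a) w)) := by
  have hna : ‖-a‖ < 1 := by rwa [norm_neg]
  have hcb : MapsTo (mob (-a)) (closedBall 0 1) (closedBall 0 1) := fun w hw => by
    rw [mem_closedBall_zero_iff] at *; exact norm_mob_le hna hw
  have hb : MapsTo (mob (-a)) (ball 0 1) (ball 0 1) := fun w hw => by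
    rw [mem_ball_zero_iff] at *; exact norm_mob_lt hna hw
  have hcb' : MapsTo (mob a) (closedBall 0 1) (closedBall 0 1) := fun w hw => by
    rw [mem_closedBall_zero_iff] at *; exact norm_mob_le ha hw
  have hb' : MapsTo (mob a) (ball 0 1) (ball 0 1) := fun w hw => by
    rw [mem_ball_zero_iff] at *; exact norm_mob_lt ha hw
  have hinv : ∀ w ∈ closedBall (0:ℂ) 1, mob a (mob (-a) w) = w := fun w hw =>
    mob_mob ha (mem_closedBall_zero_iff.1 hw)
  have hinv' : ∀ w ∈ closedBall (0:ℂ) 1, mob (-a) (mob a w) = w := fun w hw => by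
    have := mob_mob (a := -a) hna (mem_closedBall_zero_iff.1 hw)
    rwa [neg_neg] at this
  have hcont : ContinuousOn (mob (-a)) (closedBall 0 1) := by
    unfold mob
    refine ContinuousOn.div (by fun_prop) (by fun_prop) fun w hw => ?_
    exact mob_den_ne' hna (mem_closedBall_zero_iff.1 hw)
  have hdiff : DifferentiableOn ℂ (mob (-a)) (ball 0 1) := by
    unfold mob
    refine DifferentiableOn.div (by fun_prop) (by fun_prop) fun w hw => ?_
    exact mob_den_ne' hna (mem_ball_zero_iff.1 hw).le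
  have hib : mob (-a) '' ball 0 1 = ball 0 1 := by
    apply Subset.antisymm (image_subset_iff.2 hb)
    intro w hw
    exact ⟨mob a w, hb' hw, hinv' w (ball_subset_closedBall hw)⟩
  have hicb : mob (-a) '' closedBall 0 1 = closedBall 0 1 := by
    apply Subset.antisymm (image_subset_iff.2 hcb)
    intro w hw
    exact ⟨mob a w, hcb' hw, hinv' w hw⟩
  refine ⟨h.cont.comp hcont hcb, ?_, h.diff.comp hdiff hb, ?_, ?_⟩
  · intro w hw w' hw' hww
    have h1 := h.inj (hcb hw) (hcb hw') hww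
    rw [← hinv w hw, ← hinv w' hw', h1]
  · have : (fun w => Φ (mob (-a) w)) '' ball 0 1 = Φ '' (mob (-a) '' ball 0 1) := by
      rw [image_image]
    rw [this, hib, h.img]
  · have : (fun w => Φ (mob (-a) w)) '' closedBall 0 1 = Φ '' (mob (-a) '' closedBall 0 1) := by
      rw [image_image]
    rw [this, hicb, h.imgc]

theorem isJordanDomain_reg {U : Finset Fc} (hU : IsDom U) :
    Pool.Agent.H81.Q1.IsJordanDomain (reg U) :=
  ⟨isOpen_reg U, isConnected_reg hU, isBounded_reg U, exists_curve Pool.Agent.H63.UC.d1b hU⟩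

theorem exists_chart {U : Finset Fc} (hU : IsDom U) {z : ℂ} (hz : z ∈ reg U) :
    ∃ φ, DiscChart (reg U) φ ∧ φ 0 = z := by
  obtain ⟨Φ, hΦ⟩ := Pool.Agent.H69.Car.exists_car (isJordanDomain_reg hU)
  have h : DiscChart (reg U) Φ := by
    refine ⟨hΦ.cont, hΦ.inj, hΦ.diff, hΦ.image_ball, ?_⟩
    rw [← ball_union_sphere, image_union, hΦ.image_ball, hΦ.image_sphere,
      closure_eq_self_union_frontier]
  rw [← hΦ.image_ball] at hz
  obtain ⟨a, ha, rfl⟩ := hz
  exact ⟨_, h.recentre (mem_ball_zero_iff.1 ha), by rw [mob_zero']⟩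

theorem a1 : A1 := fun U hU => ⟨fun _ hz => exists_chart hU hz, frontier_reg U⟩

end Pool.Agent.H11.UC
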