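import Pool.Agent.H11.UC.Cell

set_option autoImplicit false
open Set Metric Filter Topology

/-! Edges of the hexagonal lattice in integer coordinates; the frontier of `reg U`. -/

namespace Pool.Agent.H11.UC

open Pool.Agent.H7.UC

/-- `1` for up vertices, `-1` for down vertices -/
def sg (v : Vx) : ℤ := if v.2.2 then -1 else 1
def dP (k : Fin 3) : ℤ := if k = 0 then 0 else if k = 1 then 1 else -1
def dQ (k : Fin 3) : ℤ := if k = 0 then -1 else if k = 1 then 1 else 0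

lemma sg_cases (v : Vx) : sg v = 1 ∨ sg v = -1 := by
  unfold sg; split_ifs <;> simp

lemma sg_mod (v : Vx) : (vp v + vq v) % 3 = (if v.2.2 then 1 else 2) := by
  obtain ⟨i, j, b⟩ := v
  cases b <;> simp only [vp, vq] <;> simp <;> omega

lemma vp_nb (v : Vx) (k : Fin 3) : vp (nb v k) = vp v + sg v * dP k := by
  obtain ⟨i, j, b⟩ := v
  fin_cases k <;> cases b <;> simp [nb, vp, sg, dP] <;> ring
lemma vq_nb (v : Vx) (k : Fin 3) : vq (nb v k) = vq v + sg v * dQ k := by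
  obtain ⟨i, j, b⟩ := v
  fin_cases k <;> cases b <;> simp [nb, vq, sg, dQ] <;> ring
lemma cp_fc (v : Vx) (k : Fin 3) : cp (fc v k) = vp v - sg v * dP k := by
  obtain ⟨i, j, b⟩ := v
  fin_cases k <;> cases b <;> simp [fc, vp, cp, sg, dP] <;> ring
lemma cq_fc (v : Vx) (k : Fin 3) : cq (fc v k) = vq v - sg v * dQ k := by
  obtain ⟨i, j, b⟩ := v
  fin_cases k <;> cases b <;> simp [fc, vq, cq, sg, dQ] <;> ring

/-- the point with parameter `t` of the edge `ed v k`, starting at `v` -/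
noncomputable def ept (v : Vx) (k : Fin 3) (t : ℝ) : ℂ := pv v + t * (pv (nb v k) - pv v)

lemma P_ept (v : Vx) (k : Fin 3) (t : ℝ) : P (ept v k t) = vp v + t * (sg v * dP k) := by
  unfold ept
  rw [P_add, P_mul, P_sub, P_pv, P_pv, vp_nb]
  push_cast; ring
lemma Q_ept (v : Vx) (k : Fin 3) (t : ℝ) : Q (ept v k t) = vq v + t * (sg v * dQ k) := by
  unfold ept
  rw [Q_add, Q_mul, Q_sub, Q_pv, Q_pv, vq_nb]
  push_cast; ring

lemma ept_zero (v : Vx) (k : Fin 3) : ept v k 0 = pv v := by simp [ept]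
lemma ept_one (v : Vx) (k : Fin 3) : ept v k 1 = pv (nb v k) := by simp [ept]

lemma mem_segment_ept {v : Vx} {k : Fin 3} {z : ℂ} :
    z ∈ segment ℝ (pv v) (pv (nb v k)) ↔ ∃ t ∈ Icc (0:ℝ) 1, ept v k t = z := by
  rw [segment_eq_image', mem_image]
  rfl

/-- two adjacent cells meet exactly in the common edge -/
theorem mem_cells_iff {v : Vx} {k : Fin 3} {z : ℂ} :
    (z ∈ cell (fc v (k + 1)) ∧ z ∈ cell (fc v (k + 2))) ↔ ∃ t ∈ Icc (0:ℝ) 1, ept v k t = z := by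
  rw [mem_cell, mem_cell, cp_fc, cp_fc, cq_fc, cq_fc]
  constructor
  · rintro ⟨⟨a1, a2, a3⟩, b1, b2, b3⟩
    push_cast at *
    rw [abs_le] at a1 a2 a3 b1 b2 b3
    rcases sg_cases v with h | h <;> rw [h] at a1 a2 a3 b1 b2 b3 <;> fin_cases k <;>
    simp [dP, dQ] at a1 a2 a3 b1 b2 b3
    · refine ⟨vq v - Q z, ⟨by linarith, by linarith⟩, ext_PQ ?_ ?_⟩
      · rw [P_ept, h]; simp [dP]; linarith
      · rw [Q_ept, h]; simp [dQ]
    · refine ⟨P z - vp v, ⟨by linarith, by linarith⟩, ext_PQ ?_ ?_⟩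
      · rw [P_ept, h]; simp [dP]
      · rw [Q_ept, h]; simp [dQ]; linarith
    · refine ⟨vp v - P z, ⟨by linarith, by linarith⟩, ext_PQ ?_ ?_⟩
      · rw [P_ept, h]; simp [dP]
      · rw [Q_ept, h]; simp [dQ]; linarith
    · refine ⟨Q z - vq v, ⟨by linarith, by linarith⟩, ext_PQ ?_ ?_⟩
      · rw [P_ept, h]; simp [dP]; linarith
      · rw [Q_ept, h]; simp [dQ]
    · refine ⟨vp v - P z, ⟨by linarith, by linarith⟩, ext_PQ ?_ ?_⟩
      · rw [P_ept, h]; simp [dP]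
      · rw [Q_ept, h]; simp [dQ]; linarith
    · refine ⟨P z - vp v, ⟨by linarith, by linarith⟩, ext_PQ ?_ ?_⟩
      · rw [P_ept, h]; simp [dP]
      · rw [Q_ept, h]; simp [dQ]; linarith
  · rintro ⟨t, ⟨h0, h1⟩, rfl⟩
    rw [P_ept, Q_ept]
    push_cast
    rcases sg_cases v with h | h <;> rw [h] <;> fin_cases k <;>
    refine ⟨⟨?_, ?_, ?_⟩, ?_, ?_, ?_⟩ <;> rw [abs_le] <;> constructor <;> simp [dP, dQ] <;> linarith

lemma exists_edge {f g : Fc} (hfg : f ≠ g) {z : ℂ} (hf : z ∈ cell f) (hg : z ∈ cell g) :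
    ∃ v k, f = fc v (k + 1) ∧ g = fc v (k + 2) := by
  rw [mem_cell] at hf hg
  obtain ⟨a1, a2, a3⟩ := hf
  obtain ⟨b1, b2, b3⟩ := hg
  rw [abs_le] at a1 a2 a3 b1 b2 b3
  have c1 : (cp g - cp f : ℝ) ≤ 2 := by linarith
  have c2 : (-2 : ℝ) ≤ cp g - cp f := by linarith
  have c3 : (cq g - cq f : ℝ) ≤ 2 := by linarith
  have c4 : (-2 : ℝ) ≤ cq g - cq f := by linarith
  have c5 : ((cq g - cp g) - (cq f - cp f) : ℝ) ≤ 2 := by linarith
  have c6 : (-2 : ℝ) ≤ (cq g - cp g) - (cq f - cp f) := by linarith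
  have d1 : cp g - cp f ≤ 2 := by exact_mod_cast c1
  have d2 : -2 ≤ cp g - cp f := by exact_mod_cast c2
  have d3 : cq g - cq f ≤ 2 := by exact_mod_cast c3
  have d4 : -2 ≤ cq g - cq f := by exact_mod_cast c4
  have d5 : (cq g - cp g) - (cq f - cp f) ≤ 2 := by exact_mod_cast c5
  have d6 : -2 ≤ (cq g - cp g) - (cq f - cp f) := by exact_mod_cast c6
  obtain ⟨i, j⟩ := f
  obtain ⟨i', j'⟩ := g
  simp only [cp, cq] at d1 d2 d3 d4 d5 d6
  have h : (i' = i + 1 ∧ j' = j) ∨ (i' = i - 1 ∧ j' = j) ∨ (i' = i ∧ j' = j + 1) ∨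
      (i' = i ∧ j' = j - 1) ∨ (i' = i + 1 ∧ j' = j - 1) ∨ (i' = i - 1 ∧ j' = j + 1) := by
    have : ¬ (i = i' ∧ j = j') := fun h => hfg (by rw [h.1, h.2])
    omega
  clear a1 a2 a3 b1 b2 b3 c1 c2 c3 c4 c5 c6 d1 d2 d3 d4 d5 d6
  rcases h with ⟨h1, h2⟩ | ⟨h1, h2⟩ | ⟨h1, h2⟩ | ⟨h1, h2⟩ | ⟨h1, h2⟩ | ⟨h1, h2⟩
  · exact ⟨(i, j, false), 0, by simp [fc], by simp [fc, h1, h2]⟩
  · exact ⟨(i - 1, j - 1, true), 0, by simp [fc], by simp [fc, h1, h2]⟩
  · exact ⟨(i - 1, j, true), 2, by simp [fc], by simp [fc, h1, h2]⟩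
  · exact ⟨(i, j - 1, false), 2, by simp [fc], by simp [fc, h1, h2]⟩
  · exact ⟨(i, j - 1, true), 1, by simp [fc], by simp [fc, h1, h2]⟩
  · exact ⟨(i - 1, j, false), 1, by simp [fc], by simp [fc, h1, h2]⟩

lemma isB_iff {U : Finset Fc} {v : Vx} {k : Fin 3} : isB U (ed v k) ↔
    (fc v (k + 1) ∈ U ∧ fc v (k + 2) ∉ U) ∨ (fc v (k + 1) ∉ U ∧ fc v (k + 2) ∈ U) := by
  unfold isB
  rcases faces_ed v k with ⟨-, h1, h2⟩ | ⟨-, h1, h2⟩
  · rw [h1, h2]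
  · rw [h1, h2]; tauto

/-- **The frontier of `reg U` consists of the boundary edges.** -/
theorem frontier_reg (U : Finset Fc) : frontier (reg U) =
    ⋃ v : Vx, ⋃ k : Fin 3, ⋃ _ : isB U (ed v k), segment ℝ (pv v) (pv (nb v k)) := by
  ext z
  rw [mem_frontier_reg]
  simp only [mem_iUnion, exists_prop]
  constructor
  · rintro ⟨⟨f, hf, hzf⟩, g, hg, hzg⟩
    have hne : f ≠ g := by rintro rfl; exact hg hf
    obtain ⟨v, k, h1, h2⟩ := exists_edge hne hzf hzg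
    subst h1 h2
    exact ⟨v, k, isB_iff.2 (Or.inl ⟨hf, hg⟩), mem_segment_ept.2 (mem_cells_iff.1 ⟨hzf, hzg⟩)⟩
  · rintro ⟨v, k, hb, hz⟩
    have h := mem_cells_iff.2 (mem_segment_ept.1 hz)
    rcases isB_iff.1 hb with ⟨h1, h2⟩ | ⟨h1, h2⟩
    · exact ⟨⟨_, h1, h.1⟩, _, h2, h.2⟩
    · exact ⟨⟨_, h2, h.2⟩, _, h1, h.1⟩

lemma ib {A c : ℤ} {t : ℝ} (ht : t ∈ Ioo (0:ℝ) 1) (h : |(A:ℝ) - t * c| ≤ 1) :
    (c = 0 → -1 ≤ A ∧ A ≤ 1) ∧ (c = 1 → 0 ≤ A ∧ A ≤ 1) ∧ (c = -1 → -1 ≤ A ∧ A ≤ 0) := by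
  obtain ⟨h0, h1⟩ := ht
  rw [abs_le] at h
  obtain ⟨ha, hb⟩ := h
  refine ⟨?_, ?_, ?_⟩ <;> rintro rfl <;> push_cast at ha hb
  · have e1 : (-1 : ℝ) ≤ A := by linarith
    have e2 : (A : ℝ) ≤ 1 := by linarith
    exact ⟨by exact_mod_cast e1, by exact_mod_cast e2⟩
  · have e1 : ((-1 : ℤ) : ℝ) < A := by push_cast; linarith
    have e2 : (A : ℝ) < ((2 : ℤ) : ℝ) := by push_cast; linarith
    have e1' : -1 < A := by exact_mod_cast e1
    have e2' : A < 2 := by exact_mod_cast e2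
    exact ⟨by omega, by omega⟩
  · have e1 : ((-2 : ℤ) : ℝ) < A := by push_cast; linarith
    have e2 : (A : ℝ) < ((1 : ℤ) : ℝ) := by push_cast; linarith
    have e1' : -2 < A := by exact_mod_cast e1
    have e2' : A < 1 := by exact_mod_cast e2
    exact ⟨by omega, by omega⟩

/-- in the open edge only the two faces of the edge are met -/
lemma open_edge_cells {v : Vx} {k : Fin 3} {t : ℝ} (ht : t ∈ Ioo (0:ℝ) 1) {g : Fc}
    (hg : ept v k t ∈ cell g) : g = fc v (k + 1) ∨ g = fc v (k + 2) := by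
  rw [mem_cell, P_ept, Q_ept] at hg
  obtain ⟨b1, b2, b3⟩ := hg
  have e := cp_cq_mod g
  have hm := sg_mod v
  have hs : sg v = if v.2.2 then -1 else 1 := rfl
  have c1 : |((cp g - vp v : ℤ) : ℝ) - t * (sg v * dP k : ℤ)| ≤ 1 := by
    rw [abs_sub_comm]; push_cast; convert b1 using 2; ring
  have c2 : |((cq g - vq v : ℤ) : ℝ) - t * (sg v * dQ k : ℤ)| ≤ 1 := by
    rw [abs_sub_comm]; push_cast; convert b2 using 2; ring
  have c3 : |(((cq g - vq v) - (cp g - vp v) : ℤ) : ℝ) - t * (sg v * dQ k - sg v * dP k : ℤ)| ≤ 1 := by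
    rw [abs_sub_comm]; push_cast; convert b3 using 2; ring
  have d1 := ib ht c1
  have d2 := ib ht c2
  have d3 := ib ht c3
  have key : ∀ f : Fc, cp g = cp f → cq g = cq f → g = f := fun f h h' => fc_ext h h'
  have main : (cp g = cp (fc v (k + 1)) ∧ cq g = cq (fc v (k + 1))) ∨
      (cp g = cp (fc v (k + 2)) ∧ cq g = cq (fc v (k + 2))) := by
    rw [cp_fc, cq_fc, cp_fc, cq_fc]
    clear c1 c2 c3 b1 b2 b3 key
    rcases Bool.eq_false_or_eq_true v.2.2 with hb | hb <;> simp only [hb, Bool.false_eq_true, if_true, if_false] at hm hs <;>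
    rw [hs] at d1 d2 d3 ⊢ <;> fin_cases k <;> simp [dP, dQ] at d1 d2 d3 ⊢ <;> omega
  rcases main with ⟨h1, h2⟩ | ⟨h1, h2⟩
  · exact Or.inl (key _ h1 h2)
  · exact Or.inr (key _ h1 h2)

end Pool.Agent.H11.UC
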