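import Mathlib

set_option autoImplicit false
open Set Metric Filter Topology

/-! A closed simple polygon is the image of an injective continuous map of the circle. -/

namespace Pool.Agent.H11.UC

/-- the polygon through the points `w n` -/
noncomputable def pcrv (w : ℕ → ℂ) (u : ℝ) : ℂ := w ⌊u⌋₊ + ((u - ⌊u⌋₊ : ℝ) : ℂ) * (w (⌊u⌋₊ + 1) - w ⌊u⌋₊)

lemma pcrv_eq (w : ℕ → ℂ) {n : ℕ} {u : ℝ} (h1 : (n : ℝ) ≤ u) (h2 : u ≤ n + 1) :
    pcrv w u = w n + ((u - n : ℝ) : ℂ) * (w (n + 1) - w n) := by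
  unfold pcrv
  rcases eq_or_lt_of_le h2 with h | h
  · have : ⌊u⌋₊ = n + 1 := by
      rw [h]
      have : (n : ℝ) + 1 = ((n + 1 : ℕ) : ℝ) := by push_cast; ring
      rw [this, Nat.floor_natCast]
    rw [this, h]
    push_cast
    ring
  · have : ⌊u⌋₊ = n := by
      rw [Nat.floor_eq_iff (le_trans (Nat.cast_nonneg n) h1)]
      exact ⟨h1, h⟩
    rw [this]

lemma pcrv_contOn_nat (w : ℕ → ℂ) (M : ℕ) : ContinuousOn (pcrv w) (Icc 0 (M : ℝ)) := by
  induction M with
  | zero =>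
    have : Icc (0:ℝ) ((0:ℕ) : ℝ) = {0} := by simp
    rw [this]
    exact continuousOn_singleton _ _
  | succ M ih =>
    have h1 : Icc (0:ℝ) ((M + 1 : ℕ) : ℝ) = Icc 0 (M : ℝ) ∪ Icc (M : ℝ) ((M : ℝ) + 1) := by
      rw [Icc_union_Icc_eq_Icc (Nat.cast_nonneg M) (by linarith)]
      push_cast
      rfl
    rw [h1]
    refine ih.union_of_isClosed ?_ isClosed_Icc isClosed_Icc
    have h2 : ContinuousOn (fun u : ℝ => w M + ((u - M : ℝ) : ℂ) * (w (M + 1) - w M))
        (Icc (M : ℝ) ((M : ℝ) + 1)) := by fun_prop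
    exact h2.congr fun u hu => pcrv_eq w hu.1 hu.2

lemma pcrv_mem_segment (w : ℕ → ℂ) {u : ℝ} (hu : 0 ≤ u) :
    pcrv w u ∈ segment ℝ (w ⌊u⌋₊) (w (⌊u⌋₊ + 1)) := by
  rw [segment_eq_image']
  refine ⟨u - ⌊u⌋₊, ⟨?_, ?_⟩, ?_⟩
  · linarith [Nat.floor_le hu]
  · linarith [Nat.lt_floor_add_one u]
  · simp [pcrv]

theorem exists_circle {N : ℕ} (hN : 0 < N) (w : ℕ → ℂ) (hper : ∀ n, w (n + N) = w n)
    (hinj : ∀ n < N, ∀ n' < N, ∀ t ∈ Ico (0:ℝ) 1, ∀ t' ∈ Ico (0:ℝ) 1,
      w n + (t : ℂ) * (w (n + 1) - w n) = w n' + (t' : ℂ) * (w (n' + 1) - w n') → n = n' ∧ t = t') :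
    ∃ J : Circle → ℂ, Continuous J ∧ Function.Injective J ∧
      range J = ⋃ n : ℕ, segment ℝ (w n) (w (n + 1)) := by
  have hN' : (0:ℝ) < N := by exact_mod_cast hN
  have : Fact ((0:ℝ) < N) := ⟨hN'⟩
  have hper' : pcrv w 0 = pcrv w (0 + N) := by
    rw [pcrv_eq w (n := 0) (by simp) (by simp), pcrv_eq w (n := N) (by simp) (by simp)]
    have := hper 0
    rw [zero_add] at this
    simp [this]
  set f : AddCircle (N : ℝ) → ℂ := AddCircle.liftIco (N : ℝ) 0 (pcrv w) with hf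
  have hfc : Continuous f := AddCircle.liftIco_continuous hper'
    (by rw [zero_add]; exact pcrv_contOn_nat w N)
  have hfv : ∀ u ∈ Ico (0:ℝ) N, f (u : AddCircle (N : ℝ)) = pcrv w u := fun u hu =>
    AddCircle.liftIco_coe_apply (by rw [zero_add]; exact hu)
  have hrep : ∀ a : AddCircle (N : ℝ), ∃ u ∈ Ico (0:ℝ) N, (u : AddCircle (N : ℝ)) = a := by
    intro a
    obtain ⟨u, hu, hu'⟩ := AddCircle.coe_image_Ico_eq (N : ℝ) 0 ▸ mem_univ a
    exact ⟨u, by rw [zero_add] at hu; exact hu, hu'⟩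
  have hinj' : ∀ u ∈ Ico (0:ℝ) N, ∀ v ∈ Ico (0:ℝ) N, pcrv w u = pcrv w v → u = v := by
    intro u hu v hv h
    have a1 : u - ⌊u⌋₊ ∈ Ico (0:ℝ) 1 :=
      ⟨by linarith [Nat.floor_le hu.1], by linarith [Nat.lt_floor_add_one u]⟩
    have a2 : v - ⌊v⌋₊ ∈ Ico (0:ℝ) 1 :=
      ⟨by linarith [Nat.floor_le hv.1], by linarith [Nat.lt_floor_add_one v]⟩
    have a3 := hinj _ ((Nat.floor_lt hu.1).2 hu.2) _ ((Nat.floor_lt hv.1).2 hv.2) _ a1 _ a2 h
    have a4 := a3.2
    rw [a3.1] at a4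
    linarith
  set e := AddCircle.homeomorphCircle hN'.ne' with he
  refine ⟨fun c => f (e.symm c), hfc.comp e.symm.continuous, ?_, ?_⟩
  · have hfi : Function.Injective f := by
      intro a b hab
      obtain ⟨u, hu, rfl⟩ := hrep a
      obtain ⟨v, hv, rfl⟩ := hrep b
      rw [hfv u hu, hfv v hv] at hab
      rw [hinj' u hu v hv hab]
    exact hfi.comp e.symm.injective
  · apply Subset.antisymm
    · rintro _ ⟨c, rfl⟩
      obtain ⟨u, hu, hu'⟩ := hrep (e.symm c)
      show f (e.symm c) ∈ _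
      rw [← hu', hfv u hu]
      exact mem_iUnion.2 ⟨_, pcrv_mem_segment w hu.1⟩
    · intro z hz
      obtain ⟨n, hn⟩ := mem_iUnion.1 hz
      have hmod : ∀ q : ℕ, w (n % N + N * q) = w (n % N) ∧ w (n % N + 1 + N * q) = w (n % N + 1) := by
        intro q
        induction q with
        | zero => simp
        | succ q ih =>
          constructor
          · have : n % N + N * (q + 1) = n % N + N * q + N := by ring
            rw [this, hper, ih.1]
          · have : n % N + 1 + N * (q + 1) = n % N + 1 + N * q + N := by ring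
            rw [this, hper, ih.2]
      have e1 : w n = w (n % N) := by
        conv_lhs => rw [← Nat.mod_add_div n N]
        exact (hmod _).1
      have e2 : w (n + 1) = w (n % N + 1) := by
        have : n + 1 = n % N + 1 + N * (n / N) := by
          have := Nat.mod_add_div n N; omega
        rw [this]
        exact (hmod _).2
      rw [e1, e2, segment_eq_image'] at hn
      obtain ⟨t, ⟨h0, h1⟩, rfl⟩ := hn
      have hlt : n % N < N := Nat.mod_lt _ hN
      have hlt' : ((n % N : ℕ) : ℝ) + 1 ≤ N := by exact_mod_cast hlt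
      have hval : pcrv w (((n % N : ℕ) : ℝ) + t) = w (n % N) + t • (w (n % N + 1) - w (n % N)) := by
        rw [pcrv_eq w (n := n % N) (by linarith) (by linarith)]
        simp
      show w (n % N) + t • (w (n % N + 1) - w (n % N)) ∈ _
      rw [← hval]
      rcases lt_or_ge (((n % N : ℕ) : ℝ) + t) N with h | h
      · refine ⟨e ((((n % N : ℕ) : ℝ) + t : ℝ) : AddCircle (N : ℝ)), ?_⟩
        show f (e.symm (e _)) = _
        rw [e.symm_apply_apply, hfv _ ⟨by positivity, h⟩]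
      · have h2 : ((n % N : ℕ) : ℝ) + t = 0 + N := by linarith
        rw [h2, ← hper']
        refine ⟨e ((0 : ℝ) : AddCircle (N : ℝ)), ?_⟩
        show f (e.symm (e _)) = _
        rw [e.symm_apply_apply, hfv _ ⟨le_rfl, hN'⟩]

end Pool.Agent.H11.UC
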