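import Pool.Agent.H11.UC.Conn
import Pool.Agent.H11.UC.Circ
import Pool.Agent.H7.UC.Iface
import Pool.Agent.H81.Q1.Exploration

set_option autoImplicit false
open Set Metric Filter Topology

/-! The boundary cycle of a discrete domain. -/

namespace Pool.Agent.H11.UC

open Pool.Agent.H7.UC

variable {U : Finset Fc}

/-- the edge `ed v k` leaves `v` with `U` on its left -/
def outE (U : Finset Fc) (v : Vx) (k : Fin 3) : Prop := fc v (k + 1) ∉ U ∧ fc v (k + 2) ∈ U
/-- the edge `ed v k` enters `v` with `U` on its left -/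
def inwE (U : Finset Fc) (v : Vx) (k : Fin 3) : Prop := fc v (k + 1) ∈ U ∧ fc v (k + 2) ∉ U

lemma isB_iff' {v : Vx} {k : Fin 3} : isB U (ed v k) ↔ inwE U v k ∨ outE U v k := isB_iff

lemma outE_nb {v : Vx} {k : Fin 3} : inwE U (nb v k) k ↔ outE U v k := by
  unfold outE inwE
  rw [fc_nb1, fc_nb2]; tauto

lemma inwE_nb {v : Vx} {k : Fin 3} : outE U (nb v k) k ↔ inwE U v k := by
  unfold outE inwE
  rw [fc_nb1, fc_nb2]; tauto

lemma outE_unique {v : Vx} {k l : Fin 3} (h : outE U v k) (h' : outE U v l) : k = l := by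
  unfold outE at h h'
  revert h h'
  fin_cases k <;> fin_cases l <;> simp <;> tauto

lemma inwE_unique {v : Vx} {k l : Fin 3} (h : inwE U v k) (h' : inwE U v l) : k = l := by
  unfold inwE at h h'
  revert h h'
  fin_cases k <;> fin_cases l <;> simp <;> tauto

lemma outE_ne_inwE {v : Vx} {k : Fin 3} (h : outE U v k) (h' : inwE U v k) : False := h.1 h'.1

lemma exists_outE {v : Vx} {k : Fin 3} (h : inwE U v k) : ∃ l, outE U v l := by
  unfold inwE at h
  unfold outE
  by_cases h0 : fc v k ∈ U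
  · refine ⟨k + 1, ?_⟩
    have e1 : k + 1 + 1 = k + 2 := by fin_cases k <;> rfl
    have e2 : k + 1 + 2 = k := by fin_cases k <;> rfl
    rw [e1, e2]; exact ⟨h.2, h0⟩
  · refine ⟨k + 2, ?_⟩
    have e1 : k + 2 + 1 = k := by fin_cases k <;> rfl
    have e2 : k + 2 + 2 = k + 1 := by fin_cases k <;> rfl
    rw [e1, e2]; exact ⟨h0, h.1⟩

lemma exists_inwE {v : Vx} {k : Fin 3} (h : outE U v k) : ∃ l, inwE U v l := by
  unfold outE at h
  unfold inwE
  by_cases h0 : fc v k ∈ U
  · refine ⟨k + 2, ?_⟩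
    have e1 : k + 2 + 1 = k := by fin_cases k <;> rfl
    have e2 : k + 2 + 2 = k + 1 := by fin_cases k <;> rfl
    rw [e1, e2]; exact ⟨h0, h.1⟩
  · refine ⟨k + 1, ?_⟩
    have e1 : k + 1 + 1 = k + 2 := by fin_cases k <;> rfl
    have e2 : k + 1 + 2 = k := by fin_cases k <;> rfl
    rw [e1, e2]; exact ⟨h.2, h0⟩

/-- boundary vertices -/
def BV (U : Finset Fc) : Set Vx := {v | ∃ k, outE U v k}

lemma mem_BV_iff {v : Vx} : v ∈ BV U ↔ ∃ k, inwE U v k :=
  ⟨fun ⟨_, h⟩ => exists_inwE h, fun ⟨_, h⟩ => exists_outE h⟩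

open Classical in
/-- the direction of the outgoing boundary edge -/
noncomputable def bk (U : Finset Fc) (v : Vx) : Fin 3 := if h : ∃ k, outE U v k then h.choose else 0

lemma bk_spec {v : Vx} (h : v ∈ BV U) : outE U v (bk U v) := by
  have h' : ∃ k, outE U v k := h
  unfold bk
  rw [dif_pos h']
  exact h'.choose_spec

/-- the next boundary vertex -/
noncomputable def nx (U : Finset Fc) (v : Vx) : Vx := nb v (bk U v)

lemma nx_mem {v : Vx} (h : v ∈ BV U) : nx U v ∈ BV U :=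
  mem_BV_iff.2 ⟨bk U v, outE_nb.2 (bk_spec h)⟩

lemma nx_inwE {v : Vx} (h : v ∈ BV U) : inwE U (nx U v) (bk U v) := outE_nb.2 (bk_spec h)

lemma nx_inj {v w : Vx} (hv : v ∈ BV U) (hw : w ∈ BV U) (h : nx U v = nx U w) : v = w := by
  have h1 := nx_inwE hv
  have h2 := nx_inwE hw
  rw [h] at h1
  have h3 := inwE_unique h1 h2
  unfold nx at h
  rw [h3] at h
  have h4 := congrArg (fun u => nb u (bk U w)) h
  simpa only [nb_nb] using h4

lemma BV_finite (U : Finset Fc) : (BV U).Finite := by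
  have h : BV U ⊆ ⋃ k : Fin 3, (fun v => fc v (k + 2)) ⁻¹' (U : Set Fc) := by
    rintro v ⟨k, hk⟩
    exact mem_iUnion.2 ⟨k, hk.2⟩
  refine (Set.finite_iUnion fun k => ?_).subset h
  refine Set.Finite.preimage' (Finset.finite_toSet U) fun f _ => ?_
  have h2 : (fun v => fc v (k + 2)) ⁻¹' {f} ⊆ ((Icc (cp f - 1) (cp f + 1) ×ˢ Icc (cq f - 1) (cq f + 1) :
      Set (ℤ × ℤ))).preimage (fun v => (vp v, vq v)) := by
    intro v hv
    have hv' : fc v (k + 2) = f := hv
    have h3 := cp_fc v (k + 2)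
    have h4 := cq_fc v (k + 2)
    rw [hv'] at h3 h4
    have h5 : -1 ≤ sg v * dP (k + 2) ∧ sg v * dP (k + 2) ≤ 1 := by
      rcases sg_cases v with h | h <;> rw [h] <;> fin_cases k <;> simp [dP]
    have h6 : -1 ≤ sg v * dQ (k + 2) ∧ sg v * dQ (k + 2) ≤ 1 := by
      rcases sg_cases v with h | h <;> rw [h] <;> fin_cases k <;> simp [dQ]
    refine ⟨⟨?_, ?_⟩, ⟨?_, ?_⟩⟩ <;> simp only <;> omega
  refine Set.Finite.subset (Set.Finite.preimage ?_ ((finite_Icc _ _).prod (finite_Icc _ _))) h2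
  intro v _ w _ hvw
  simp only [Prod.mk.injEq] at hvw
  apply pv_inj
  apply ext_PQ
  · rw [P_pv, P_pv, hvw.1]
  · rw [Q_pv, Q_pv, hvw.2]

lemma iter_mem {v : Vx} (h : v ∈ BV U) (n : ℕ) : (nx U)^[n] v ∈ BV U := by
  induction n with
  | zero => exact h
  | succ n ih => rw [Function.iterate_succ_apply']; exact nx_mem ih

lemma iter_inj {v w : Vx} (hv : v ∈ BV U) (hw : w ∈ BV U) (n : ℕ)
    (h : (nx U)^[n] v = (nx U)^[n] w) : v = w := by
  induction n with
  | zero => exact h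
  | succ n ih =>
    rw [Function.iterate_succ_apply', Function.iterate_succ_apply'] at h
    exact ih (nx_inj (iter_mem hv n) (iter_mem hw n) h)

lemma exists_period {v : Vx} (h : v ∈ BV U) : ∃ n, 0 < n ∧ (nx U)^[n] v = v := by
  have h1 : ¬ Function.Injective (fun n : ℕ => (⟨(nx U)^[n] v, iter_mem h n⟩ : BV U)) := by
    intro hi
    have := (BV_finite U).to_subtype
    exact not_injective_infinite_finite _ hi
  rw [Function.not_injective_iff] at h1
  obtain ⟨a, b, hab, hne⟩ := h1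
  have key : ∀ a b : ℕ, a < b → (nx U)^[a] v = (nx U)^[b] v → ∃ n, 0 < n ∧ (nx U)^[n] v = v := by
    intro a b hlt hab
    refine ⟨b - a, by omega, ?_⟩
    have e : (nx U)^[a] ((nx U)^[b - a] v) = (nx U)^[a] v := by
      rw [← Function.iterate_add_apply, show a + (b - a) = b by omega, hab]
    exact iter_inj (iter_mem h _) h a e
  have hab' : (nx U)^[a] v = (nx U)^[b] v := congrArg Subtype.val hab
  rcases lt_or_gt_of_ne hne with h2 | h2
  · exact key a b h2 hab'
  · exact key b a h2 hab'.symm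

/-- the least period -/
lemma exists_cycle {v : Vx} (h : v ∈ BV U) : ∃ N, 0 < N ∧ (∀ n, (nx U)^[n + N] v = (nx U)^[n] v) ∧
    ∀ n < N, ∀ n' < N, (nx U)^[n] v = (nx U)^[n'] v → n = n' := by
  classical
  have hex := exists_period h
  set N := Nat.find hex with hN
  have h1 := Nat.find_spec hex
  rw [← hN] at h1
  refine ⟨N, h1.1, fun n => by rw [Function.iterate_add_apply, h1.2], ?_⟩
  have key : ∀ a b : ℕ, a < b → b < N → (nx U)^[a] v ≠ (nx U)^[b] v := by
    intro a b hlt hb hab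
    have e : (nx U)^[a] ((nx U)^[b - a] v) = (nx U)^[a] v := by
      rw [← Function.iterate_add_apply, show a + (b - a) = b by omega, hab]
    have e' := iter_inj (iter_mem h _) h a e
    exact Nat.find_min hex (m := b - a) (by omega) ⟨by omega, e'⟩
  intro n hn n' hn' hnn
  rcases lt_trichotomy n n' with h2 | h2 | h2
  · exact absurd hnn (key _ _ h2 hn')
  · exact h2
  · exact absurd hnn.symm (key _ _ h2 hn)

/-- all boundary edges lie on the cycle of `v0` -/
theorem all_edges (hD : D1b) (hU : IsDom U) {v0 : Vx} (h0 : v0 ∈ BV U) {v : Vx} {k : Fin 3}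
    (hb : isB U (ed v k)) : ∃ n, ed v k = ed ((nx U)^[n] v0) (bk U ((nx U)^[n] v0)) := by
  classical
  obtain ⟨N, hN, hper, -⟩ := exists_cycle h0
  set O : Set Vx := {w | ∃ n, (nx U)^[n] v0 = w} with hO
  have hOB : ∀ w ∈ O, w ∈ BV U := by
    rintro _ ⟨n, rfl⟩; exact iter_mem h0 n
  have hOn : ∀ w ∈ O, nx U w ∈ O := by
    rintro _ ⟨n, rfl⟩; exact ⟨n + 1, Function.iterate_succ_apply' _ _ _⟩
  have hOp : ∀ w ∈ O, ∃ u ∈ O, nx U u = w := by
    rintro _ ⟨n, rfl⟩
    refine ⟨(nx U)^[n + N - 1] v0, ⟨_, rfl⟩, ?_⟩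
    rw [← Function.iterate_succ_apply' (nx U), ← hper n]
    congr 2; omega
  set S : Set Ed := {e | ∃ w ∈ O, e = ed w (bk U w)} with hS
  set x : Ed → ZMod 2 := fun e => if e ∈ S then 1 else 0 with hx
  have hsupp : ∀ e, x e ≠ 0 → isB U e := by
    intro e he
    have : e ∈ S := by
      by_contra h
      exact he (if_neg h)
    obtain ⟨w, hw, rfl⟩ := this
    exact isB_iff'.2 (Or.inr (bk_spec (hOB w hw)))
  have hmemS : ∀ w l, ed w l ∈ S ↔ w ∈ O ∧ (inwE U w l ∨ outE U w l) := by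
    intro w l
    constructor
    · rintro ⟨u, hu, hn⟩
      have hs := bk_spec (hOB u hu)
      obtain ⟨hl, h | h⟩ := (ed_eq_iff _ _ _ _).1 hn.symm
      · rw [h, ← hl]; exact ⟨hu, Or.inr hs⟩
      · have h' : w = nx U u := h
        rw [h', ← hl]; exact ⟨hOn u hu, Or.inl (nx_inwE (hOB u hu))⟩
    · rintro ⟨hw, h | h⟩
      · obtain ⟨u, hu, rfl⟩ := hOp w hw
        refine ⟨u, hu, ?_⟩
        rw [inwE_unique h (nx_inwE (hOB u hu))]
        exact ed_nb u _
      · exact ⟨w, hw, by rw [outE_unique h (bk_spec (hOB w hw))]⟩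
  have hdv : ∀ w, dv x w = 0 := by
    intro w
    unfold dv
    by_cases hw : w ∈ O
    · have e : ∀ l, x (ed w l) = if (inwE U w l ∨ outE U w l) then 1 else 0 := by
        intro l
        simp only [hx, hmemS, hw, true_and]
      rw [e 0, e 1, e 2]
      unfold inwE outE
      have h2 : (1 : ZMod 2) + 1 = 0 := by decide
      by_cases a0 : fc w 0 ∈ U <;> by_cases a1 : fc w 1 ∈ U <;> by_cases a2 : fc w 2 ∈ U <;>
      simp [a0, a1, a2, h2]
    · have e : ∀ l, x (ed w l) = 0 := by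
        intro l
        simp only [hx, hmemS, hw, false_and, if_false]
      rw [e 0, e 1, e 2]; simp
  have h1 : x (ed v k) = 1 := by
    rcases hD U hU x hsupp hdv with h | h
    · exfalso
      have h2 : x (ed v0 (bk U v0)) = 1 := if_pos ⟨v0, ⟨0, rfl⟩, rfl⟩
      rw [h] at h2
      exact absurd h2 (by decide)
    · exact h _ hb
  have h2 : ed v k ∈ S := by
    by_contra h
    have : x (ed v k) = 0 := if_neg h
    rw [h1] at this
    exact absurd this (by decide)
  obtain ⟨w, ⟨n, rfl⟩, hw⟩ := h2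
  exact ⟨n, hw⟩

/-- a vertex is not an interior point of an edge -/
lemma ept_ne_pv {v w : Vx} {k : Fin 3} {t : ℝ} (ht : t ∈ Ioo (0:ℝ) 1) : ept v k t ≠ pv w := by
  intro h
  have h1 : ∀ l, fc w l = fc v (k + 1) ∨ fc w l = fc v (k + 2) := by
    intro l
    apply open_edge_cells ht
    rw [h, mem_cell, P_pv, Q_pv, cp_fc, cq_fc]
    push_cast
    rcases sg_cases w with h | h <;> rw [h] <;> fin_cases l <;>
    refine ⟨?_, ?_, ?_⟩ <;> rw [abs_le] <;> constructor <;> simp [dP, dQ]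
  rcases h1 0 with a | a <;> rcases h1 1 with b | b <;> rcases h1 2 with c | c <;>
  first
  | exact absurd ((fc_inj w 0 1).1 (a.trans b.symm)) (by decide)
  | exact absurd ((fc_inj w 0 2).1 (a.trans c.symm)) (by decide)
  | exact absurd ((fc_inj w 1 2).1 (b.trans c.symm)) (by decide)

/-- an interior point determines the two faces -/
lemma ept_faces {v w : Vx} {k l : Fin 3} {t t' : ℝ} (ht : t ∈ Ioo (0:ℝ) 1) (ht' : t' ∈ Ioo (0:ℝ) 1)
    (h : ept v k t = ept w l t') :
    (fc v (k + 1) = fc w (l + 1) ∧ fc v (k + 2) = fc w (l + 2)) ∨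
    (fc v (k + 1) = fc w (l + 2) ∧ fc v (k + 2) = fc w (l + 1)) := by
  have c1 := (mem_cells_iff (v := v) (k := k)).2 ⟨t, ⟨ht.1.le, ht.2.le⟩, rfl⟩
  rw [h] at c1
  have d1 := open_edge_cells ht' c1.1
  have d2 := open_edge_cells ht' c1.2
  have hne : fc v (k + 1) ≠ fc v (k + 2) := by
    intro h
    have := (fc_inj _ _ _).1 h
    revert this
    fin_cases k <;> decide
  rcases d1 with d1 | d1 <;> rcases d2 with d2 | d2
  · exact absurd (d1.trans d2.symm) hne
  · exact Or.inl ⟨d1, d2⟩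
  · exact Or.inr ⟨d1, d2⟩
  · exact absurd (d1.trans d2.symm) hne

/-- the directed edge is determined by its left and right face -/
lemma dart_ext {v w : Vx} {k l : Fin 3} (h1 : fc v (k + 1) = fc w (l + 1))
    (h2 : fc v (k + 2) = fc w (l + 2)) : v = w ∧ k = l := by
  have a1 := congrArg cp h1
  have a2 := congrArg cq h1
  have b1 := congrArg cp h2
  have b2 := congrArg cq h2
  rw [cp_fc, cp_fc] at a1 b1
  rw [cq_fc, cq_fc] at a2 b2
  have key : k = l ∧ sg v = sg w ∧ vp v = vp w ∧ vq v = vq w := by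
    rcases sg_cases v with hv | hv <;> rcases sg_cases w with hw | hw <;> rw [hv, hw] at a1 a2 b1 b2 ⊢ <;>
    fin_cases k <;> fin_cases l <;> simp [dP, dQ] at a1 a2 b1 b2 ⊢ <;> omega
  refine ⟨pv_inj (ext_PQ ?_ ?_), key.1⟩
  · rw [P_pv, P_pv, key.2.2.1]
  · rw [Q_pv, Q_pv, key.2.2.2]

lemma ept_inj_t {v : Vx} {k : Fin 3} {t t' : ℝ} (h : ept v k t = ept v k t') : t = t' := by
  unfold ept at h
  have h1 := add_left_cancel h
  have h2 : pv (nb v k) - pv v ≠ 0 := sub_ne_zero.2 fun h => nb_ne v k (pv_inj h)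
  exact_mod_cast mul_right_cancel₀ h2 h1

/-- **The boundary curve.** -/
theorem exists_curve (hD : D1b) (hU : IsDom U) : ∃ J : Circle → ℂ, Continuous J ∧
    Function.Injective J ∧ frontier (reg U) = range J := by
  -- a boundary vertex exists
  have hB : ∃ v, v ∈ BV U := by
    have h1 : (frontier (reg U)).Nonempty := by
      rw [nonempty_iff_ne_empty, Ne, frontier_eq_empty_iff]
      rintro (h | h)
      · obtain ⟨f, hf⟩ := hU.ne
        have := ocell_subset_reg hf (ctr_mem f)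
        rw [h] at this; exact this
      · have := isBounded_reg U
        rw [h] at this
        exact NormedSpace.unbounded_univ ℝ ℂ this
    obtain ⟨z, hz⟩ := h1
    rw [frontier_reg] at hz
    simp only [mem_iUnion, exists_prop] at hz
    obtain ⟨v, k, hb, -⟩ := hz
    rcases isB_iff'.1 hb with h | h
    · exact ⟨v, mem_BV_iff.2 ⟨k, h⟩⟩
    · exact ⟨v, k, h⟩
  obtain ⟨v0, h0⟩ := hB
  obtain ⟨N, hN, hper, hinj⟩ := exists_cycle h0
  set a : ℕ → Vx := fun n => (nx U)^[n] v0 with ha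
  have has : ∀ n, a (n + 1) = nb (a n) (bk U (a n)) := fun n => Function.iterate_succ_apply' _ _ _
  have hout : ∀ n, outE U (a n) (bk U (a n)) := fun n => bk_spec (iter_mem h0 n)
  have hept : ∀ n (t : ℝ), pv (a n) + (t : ℂ) * (pv (a (n + 1)) - pv (a n)) = ept (a n) (bk U (a n)) t := by
    intro n t
    rw [has]; rfl
  obtain ⟨J, hJ1, hJ2, hJ3⟩ := exists_circle hN (fun n => pv (a n)) (fun n => by rw [ha]; simp only [hper]) (by
    intro n hn n' hn' t ht t' ht' h
    simp only [hept] at h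
    rcases eq_or_lt_of_le ht.1 with h1 | h1 <;> rcases eq_or_lt_of_le ht'.1 with h2 | h2
    · rw [← h1, ← h2, ept_zero, ept_zero] at h
      exact ⟨hinj n hn n' hn' (pv_inj h), by rw [← h1, ← h2]⟩
    · rw [← h1, ept_zero] at h
      exact absurd h.symm (ept_ne_pv ⟨h2, ht'.2⟩)
    · rw [← h2, ept_zero] at h
      exact absurd h (ept_ne_pv ⟨h1, ht.2⟩)
    · rcases ept_faces ⟨h1, ht.2⟩ ⟨h2, ht'.2⟩ h with ⟨e1, e2⟩ | ⟨e1, e2⟩
      · obtain ⟨e3, e4⟩ := dart_ext e1 e2
        have e5 := hinj n hn n' hn' e3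
        subst e5
        exact ⟨rfl, ept_inj_t h⟩
      · exact absurd ((hout n').2) (e1 ▸ (hout n).1))
  refine ⟨J, hJ1, hJ2, ?_⟩
  rw [hJ3, frontier_reg]
  apply Subset.antisymm
  · intro z hz
    simp only [mem_iUnion, exists_prop] at hz
    obtain ⟨v, k, hb, hz⟩ := hz
    obtain ⟨n, hn⟩ := all_edges hD hU h0 hb
    refine mem_iUnion.2 ⟨n, ?_⟩
    show z ∈ segment ℝ (pv (a n)) (pv (a (n + 1)))
    rw [has]
    obtain ⟨hk, h | h⟩ := (ed_eq_iff _ _ _ _).1 hn.symm
    · have h' : v = a n := h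
      have hk' : bk U (a n) = k := hk
      rw [hk', ← h']; exact hz
    · have h' : v = nb (a n) (bk U (a n)) := h
      have hk' : bk U (a n) = k := hk
      rw [h', hk', nb_nb, segment_symm] at hz
      rw [hk']; exact hz
  · intro z hz
    obtain ⟨n, hn⟩ := mem_iUnion.1 hz
    have hn' : z ∈ segment ℝ (pv (a n)) (pv (a (n + 1))) := hn
    rw [has] at hn'
    simp only [mem_iUnion, exists_prop]
    exact ⟨a n, bk U (a n), isB_iff'.2 (Or.inr (hout n)), hn'⟩

end Pool.Agent.H11.UC
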