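import Pool.Agent.H11.UC.Coord

set_option autoImplicit false
open Set Metric Filter Topology

/-! Cells: the closed hexagons tile the plane; `reg U`, its closure and its frontier. -/

namespace Pool.Agent.H11.UC

open Pool.Agent.H7.UC

/-- the open hexagon -/
def ocell (f : Fc) : Set ℂ := {z | |P z - cp f| < 1 ∧ |Q z - cq f| < 1 ∧
    |(Q z - P z) - (cq f - cp f)| < 1}

lemma isOpen_ocell (f : Fc) : IsOpen (ocell f) := by
  have h1 := continuous_P
  have h2 := continuous_Q
  have e : ocell f = {z | |P z - cp f| < 1} ∩ ({z | |Q z - cq f| < 1} ∩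
    {z | |(Q z - P z) - (cq f - cp f)| < 1}) := rfl
  rw [e]
  exact (isOpen_lt (by fun_prop) continuous_const).inter
    ((isOpen_lt (by fun_prop) continuous_const).inter (isOpen_lt (by fun_prop) continuous_const))

lemma isClosed_cell (f : Fc) : IsClosed (cell f) := by
  have h1 := continuous_P
  have h2 := continuous_Q
  have : cell f = {z | |P z - cp f| ≤ 1} ∩ ({z | |Q z - cq f| ≤ 1} ∩
    {z | |(Q z - P z) - (cq f - cp f)| ≤ 1}) := by
    ext z; exact mem_cell z f
  rw [this]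
  exact (isClosed_le (by fun_prop) continuous_const).inter
    ((isClosed_le (by fun_prop) continuous_const).inter (isClosed_le (by fun_prop) continuous_const))

lemma ocell_subset (f : Fc) : ocell f ⊆ cell f := fun z hz =>
  (mem_cell z f).2 ⟨hz.1.le, hz.2.1.le, hz.2.2.le⟩

lemma ctr_mem (f : Fc) : ctr f ∈ ocell f := by
  refine ⟨?_, ?_, ?_⟩ <;> simp [P_ctr, Q_ctr]

lemma isBounded_cell (f : Fc) : Bornology.IsBounded (cell f) := by
  refine (Metric.isBounded_closedBall (x := ctr f) (r := 2)).subset fun z hz => ?_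
  rw [mem_cell, ← P_ctr, ← Q_ctr, ← P_sub, ← Q_sub] at hz
  obtain ⟨h1, h2, h3⟩ := hz
  rw [mem_closedBall, dist_eq_norm]
  have h4 : |(z - ctr f).re| ≤ 1 / 2 := by
    have : P (z - ctr f) = 2 * (z - ctr f).re := rfl
    rw [this, abs_mul, abs_two] at h1
    linarith
  have h5 : |(z - ctr f).im| ≤ 3 / 2 := by
    have h6 : Q (z - ctr f) = (z - ctr f).re + √3 * (z - ctr f).im := rfl
    have h7 : |√3 * (z - ctr f).im| ≤ 3 / 2 := by
      have : √3 * (z - ctr f).im = Q (z - ctr f) - (z - ctr f).re := by rw [h6]; ring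
      rw [this]
      calc |Q (z - ctr f) - (z - ctr f).re| ≤ |Q (z - ctr f)| + |(z - ctr f).re| := abs_sub _ _
        _ ≤ 3 / 2 := by linarith
    rw [abs_mul, abs_of_pos s3_pos] at h7
    have h8 : (1:ℝ) ≤ √3 := by
      rw [Real.le_sqrt (by norm_num)] <;> norm_num
    nlinarith [abs_nonneg (z - ctr f).im]
  calc ‖z - ctr f‖ ≤ |(z - ctr f).re| + |(z - ctr f).im| := Complex.norm_le_abs_re_add_abs_im _
    _ ≤ 2 := by linarith

/-- shrinking towards the centre -/
lemma shrink_mem {f : Fc} {z : ℂ} (hz : z ∈ cell f) {t : ℝ} (h0 : 0 ≤ t) (h1 : t < 1) :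
    ctr f + t * (z - ctr f) ∈ ocell f := by
  rw [mem_cell] at hz
  have eP : P (ctr f + t * (z - ctr f)) - cp f = t * (P z - cp f) := by
    rw [P_add, P_mul, P_sub, P_ctr]; ring
  have eQ : Q (ctr f + t * (z - ctr f)) - cq f = t * (Q z - cq f) := by
    rw [Q_add, Q_mul, Q_sub, Q_ctr]; ring
  have key : ∀ a : ℝ, |a| ≤ 1 → |t * a| < 1 := by
    intro a ha
    rw [abs_mul, abs_of_nonneg h0]
    calc t * |a| ≤ t * 1 := mul_le_mul_of_nonneg_left ha h0
      _ < 1 := by linarith
  refine ⟨?_, ?_, ?_⟩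
  · rw [eP]; exact key _ hz.1
  · rw [eQ]; exact key _ hz.2.1
  · have : Q (ctr f + t * (z - ctr f)) - P (ctr f + t * (z - ctr f)) - (cq f - cp f) =
        t * ((Q z - P z) - (cq f - cp f)) := by linear_combination eQ - eP
    rw [this]; exact key _ hz.2.2

lemma cell_subset_closure (f : Fc) : cell f ⊆ closure (ocell f) := by
  intro z hz
  have h1 : Tendsto (fun t : ℝ => ctr f + t * (z - ctr f)) (𝓝[<] 1) (𝓝 (ctr f + (1:ℝ) * (z - ctr f))) := by
    refine Tendsto.mono_left ?_ nhdsWithin_le_nhds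
    exact Continuous.tendsto (by fun_prop) 1
  have h2 : ctr f + ((1:ℝ):ℂ) * (z - ctr f) = z := by push_cast; ring
  rw [h2] at h1
  refine mem_closure_of_tendsto h1 ?_
  filter_upwards [Ioo_mem_nhdsLT (show (0:ℝ) < 1 by norm_num)] with t ht
  exact shrink_mem hz ht.1.le ht.2

/-- the difference of two faces in integer coordinates -/
lemma fc_ext {f g : Fc} (h1 : cp f = cp g) (h2 : cq f = cq g) : f = g := by
  unfold cp at h1; unfold cq at h2
  exact Prod.ext (by omega) (by omega)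

lemma cp_cq_mod (f : Fc) : (cp f + cq f) % 3 = 0 := by unfold cp cq; omega

lemma exists_fc {a b : ℤ} (h : (a + b) % 3 = 0) : ∃ f : Fc, cp f = a ∧ cq f = b := by
  refine ⟨((2 * a - b) / 3, (2 * b - a) / 3), ?_, ?_⟩ <;> simp only [cp, cq] <;> omega

lemma disj_ocell {f g : Fc} (h : f ≠ g) {z : ℂ} (hz : z ∈ ocell f) : z ∉ cell g := by
  intro hg
  rw [mem_cell] at hg
  obtain ⟨a1, a2, a3⟩ := hz
  obtain ⟨b1, b2, b3⟩ := hg
  rw [abs_lt] at a1 a2 a3
  rw [abs_le] at b1 b2 b3
  apply h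
  have c1 : (cp f - cp g : ℝ) < 2 := by linarith
  have c2 : (-2 : ℝ) < cp f - cp g := by linarith
  have c3 : (cq f - cq g : ℝ) < 2 := by linarith
  have c4 : (-2 : ℝ) < cq f - cq g := by linarith
  have c5 : ((cq f - cp f) - (cq g - cp g) : ℝ) < 2 := by linarith
  have c6 : (-2 : ℝ) < (cq f - cp f) - (cq g - cp g) := by linarith
  have d1 : cp f - cp g < 2 := by exact_mod_cast c1
  have d2 : -2 < cp f - cp g := by exact_mod_cast c2
  have d3 : cq f - cq g < 2 := by exact_mod_cast c3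
  have d4 : -2 < cq f - cq g := by exact_mod_cast c4
  have d5 : (cq f - cp f) - (cq g - cp g) < 2 := by exact_mod_cast c5
  have d6 : -2 < (cq f - cp f) - (cq g - cp g) := by exact_mod_cast c6
  have e1 := cp_cq_mod f
  have e2 := cp_cq_mod g
  apply fc_ext <;> omega

/-- the cells cover the plane -/
lemma exists_cell (z : ℂ) : ∃ f, z ∈ cell f := by
  set a := ⌊P z⌋ with ha
  set b := ⌊Q z⌋ with hb
  have a1 : (a : ℝ) ≤ P z := Int.floor_le _
  have a2 : P z < a + 1 := Int.lt_floor_add_one _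
  have b1 : (b : ℝ) ≤ Q z := Int.floor_le _
  have b2 : Q z < b + 1 := Int.lt_floor_add_one _
  have hm : (a + b) % 3 = 0 ∨ (a + b) % 3 = 1 ∨ (a + b) % 3 = 2 := by omega
  have fin : ∀ a' b' : ℤ, (a' + b') % 3 = 0 → |P z - a'| ≤ 1 → |Q z - b'| ≤ 1 →
      |(Q z - P z) - (b' - a')| ≤ 1 → ∃ f, z ∈ cell f := by
    intro a' b' h h1 h2 h3
    obtain ⟨f, rfl, rfl⟩ := exists_fc h
    exact ⟨f, (mem_cell z f).2 ⟨h1, h2, h3⟩⟩
  rcases hm with h | h | h
  · exact fin a b h (by rw [abs_le]; constructor <;> linarith) (by rw [abs_le]; constructor <;> linarith)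
      (by rw [abs_le]; constructor <;> linarith)
  · refine fin (a + 1) (b + 1) (by omega) ?_ ?_ ?_ <;> push_cast <;> rw [abs_le] <;> constructor <;> linarith
  · rcases le_total (Q z - P z) (b - a) with h' | h'
    · refine fin (a + 1) b (by omega) ?_ ?_ ?_ <;> push_cast <;> rw [abs_le] <;> constructor <;> linarith
    · refine fin a (b + 1) (by omega) ?_ ?_ ?_ <;> push_cast <;> rw [abs_le] <;> constructor <;> linarith

/-- faces near a point -/
def near (z : ℂ) : Set Fc := {g | |P z - cp g| ≤ 2 ∧ |Q z - cq g| ≤ 2}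

lemma near_finite (z : ℂ) : (near z).Finite := by
  have h1 : (Icc (⌊P z⌋ - 2) (⌊P z⌋ + 3) ×ˢ Icc (⌊Q z⌋ - 2) (⌊Q z⌋ + 3) : Set (ℤ × ℤ)).Finite :=
    (finite_Icc _ _).prod (finite_Icc _ _)
  refine Set.Finite.of_finite_image (f := fun g : Fc => (cp g, cq g)) (h1.subset ?_) ?_
  · rintro _ ⟨g, ⟨hg1, hg2⟩, rfl⟩
    rw [abs_le] at hg1 hg2
    have a1 : (⌊P z⌋ : ℝ) ≤ P z := Int.floor_le _
    have a2 : P z < ⌊P z⌋ + 1 := Int.lt_floor_add_one _
    have b1 : (⌊Q z⌋ : ℝ) ≤ Q z := Int.floor_le _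
    have b2 : Q z < ⌊Q z⌋ + 1 := Int.lt_floor_add_one _
    have c1 : ((⌊P z⌋ - 2 : ℤ) : ℝ) ≤ cp g := by push_cast; linarith
    have c2 : (cp g : ℝ) ≤ ((⌊P z⌋ + 3 : ℤ) : ℝ) := by push_cast; linarith
    have c3 : ((⌊Q z⌋ - 2 : ℤ) : ℝ) ≤ cq g := by push_cast; linarith
    have c4 : (cq g : ℝ) ≤ ((⌊Q z⌋ + 3 : ℤ) : ℝ) := by push_cast; linarith
    exact ⟨⟨by exact_mod_cast c1, by exact_mod_cast c2⟩, ⟨by exact_mod_cast c3, by exact_mod_cast c4⟩⟩
  · intro g _ g' _ h
    simp only [Prod.mk.injEq] at h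
    exact fc_ext h.1 h.2

/-- near `z` only the cells containing `z` are met -/
lemma eventually_cells (z : ℂ) : ∀ᶠ w in 𝓝 z, ∀ g, w ∈ cell g → z ∈ cell g := by
  have h1 : ∀ᶠ w in 𝓝 z, |P w - P z| < 1 := by
    have : Tendsto (fun w => |P w - P z|) (𝓝 z) (𝓝 |P z - P z|) := by
      have := continuous_P
      exact Continuous.tendsto (by fun_prop) z
    rw [sub_self, abs_zero] at this
    exact this.eventually (gt_mem_nhds one_pos)
  have h2 : ∀ᶠ w in 𝓝 z, |Q w - Q z| < 1 := by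
    have : Tendsto (fun w => |Q w - Q z|) (𝓝 z) (𝓝 |Q z - Q z|) := by
      have := continuous_Q
      exact Continuous.tendsto (by fun_prop) z
    rw [sub_self, abs_zero] at this
    exact this.eventually (gt_mem_nhds one_pos)
  have h3 : ∀ᶠ w in 𝓝 z, ∀ g ∈ near z, z ∉ cell g → w ∉ cell g := by
    rw [eventually_all_finite (near_finite z)]
    intro g _
    by_cases hz : z ∈ cell g
    · exact Eventually.of_forall fun w h => absurd hz h
    · filter_upwards [(isClosed_cell g).isOpen_compl.mem_nhds hz] with w hw _ using hw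
  filter_upwards [h1, h2, h3] with w k1 k2 k3 g hg
  by_contra hz
  refine k3 g ?_ hz hg
  rw [mem_cell] at hg
  have l1 := hg.1
  have l2 := hg.2.1
  rw [abs_lt] at k1 k2
  rw [abs_le] at l1 l2
  constructor <;> rw [abs_le] <;> constructor <;> linarith

/-- the closed region -/
def creg (U : Finset Fc) : Set ℂ := ⋃ f ∈ U, cell f

lemma mem_creg {U : Finset Fc} {z : ℂ} : z ∈ creg U ↔ ∃ f ∈ U, z ∈ cell f := by
  simp [creg]

lemma isClosed_creg (U : Finset Fc) : IsClosed (creg U) :=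
  isClosed_biUnion_finset fun f _ => isClosed_cell f

lemma isBounded_creg (U : Finset Fc) : Bornology.IsBounded (creg U) := by
  unfold creg
  exact (Bornology.isBounded_biUnion_finset U).2 fun f _ => isBounded_cell f

lemma isOpen_reg (U : Finset Fc) : IsOpen (reg U) := isOpen_interior

lemma reg_subset_creg (U : Finset Fc) : reg U ⊆ creg U := interior_subset

/-- a point is in `reg U` iff every cell containing it belongs to `U` -/
theorem mem_reg {U : Finset Fc} {z : ℂ} : z ∈ reg U ↔ ∀ g, z ∈ cell g → g ∈ U := by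
  constructor
  · intro hz g hg
    by_contra hgU
    have h1 := cell_subset_closure g hg
    rw [_root_.mem_closure_iff] at h1
    obtain ⟨w, hw1, hw2⟩ := h1 (reg U) (isOpen_reg U) hz
    obtain ⟨f, hf, hwf⟩ := mem_creg.1 (reg_subset_creg U hw1)
    have hne : g ≠ f := by rintro rfl; exact hgU hf
    exact disj_ocell hne hw2 hwf
  · intro h
    show z ∈ interior (creg U)
    rw [mem_interior_iff_mem_nhds]
    filter_upwards [eventually_cells z] with w hw
    obtain ⟨g, hg⟩ := exists_cell w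
    exact mem_creg.2 ⟨g, h g (hw g hg), hg⟩

lemma ocell_subset_reg {U : Finset Fc} {f : Fc} (hf : f ∈ U) : ocell f ⊆ reg U := by
  intro z hz
  rw [mem_reg]
  intro g hg
  by_contra hgU
  have hne : f ≠ g := by rintro rfl; exact hgU hf
  exact disj_ocell hne hz hg

theorem closure_reg (U : Finset Fc) : closure (reg U) = creg U := by
  apply Subset.antisymm
  · exact closure_minimal (reg_subset_creg U) (isClosed_creg U)
  · intro z hz
    obtain ⟨f, hf, hzf⟩ := mem_creg.1 hz
    exact closure_mono (ocell_subset_reg hf) (cell_subset_closure f hzf)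

theorem mem_frontier_reg {U : Finset Fc} {z : ℂ} :
    z ∈ frontier (reg U) ↔ (∃ f ∈ U, z ∈ cell f) ∧ ∃ g, g ∉ U ∧ z ∈ cell g := by
  rw [(isOpen_reg U).frontier_eq, closure_reg, Set.mem_sdiff, mem_creg, mem_reg]
  push Not
  constructor
  · rintro ⟨h1, g, h2, h3⟩; exact ⟨h1, g, h3, h2⟩
  · rintro ⟨h1, g, h2, h3⟩; exact ⟨h1, g, h3, h2⟩

lemma isBounded_reg (U : Finset Fc) : Bornology.IsBounded (reg U) :=
  (isBounded_creg U).subset (reg_subset_creg U)

end Pool.Agent.H11.UC
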