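import Pool.Agent.H11.UC.Edge

set_option autoImplicit false
open Set Metric Filter Topology

/-! `reg U` is connected for a connected set of faces. -/

namespace Pool.Agent.H11.UC

open Pool.Agent.H7.UC

lemma joined_ctr {U : Finset Fc} {f : Fc} (hf : f ∈ U) {z : ℂ} (hz : z ∈ reg U) (hzf : z ∈ cell f) :
    JoinedIn (reg U) (ctr f) z := by
  apply JoinedIn.of_segment_subset
  rw [segment_eq_image']
  rintro _ ⟨t, ⟨h0, h1⟩, rfl⟩
  rcases eq_or_lt_of_le h1 with h | h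
  · subst h
    simpa using hz
  · have h2 := ocell_subset_reg hf (shrink_mem hzf h0 h)
    simpa using h2

lemma mid_mem_reg {U : Finset Fc} {v : Vx} {k : Fin 3} (h1 : fc v (k + 1) ∈ U)
    (h2 : fc v (k + 2) ∈ U) {t : ℝ} (ht : t ∈ Ioo (0:ℝ) 1) : ept v k t ∈ reg U := by
  rw [mem_reg]
  intro g hg
  rcases open_edge_cells ht hg with rfl | rfl
  · exact h1
  · exact h2

lemma joined_adj {U : Finset Fc} {f g : Fc} (hf : f ∈ U) (hg : g ∈ U) (h : adjF f g) :
    JoinedIn (reg U) (ctr f) (ctr g) := by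
  obtain ⟨e, he⟩ := h
  have key : ∀ v : Vx, ∀ k : Fin 3, fc v (k + 1) ∈ U → fc v (k + 2) ∈ U →
      JoinedIn (reg U) (ctr (fc v (k + 1))) (ctr (fc v (k + 2))) := by
    intro v k h1 h2
    have ht : (1 / 2 : ℝ) ∈ Ioo (0:ℝ) 1 := by constructor <;> norm_num
    have hm := mid_mem_reg h1 h2 ht
    have hc := (mem_cells_iff (v := v) (k := k)).2 ⟨1 / 2, ⟨ht.1.le, ht.2.le⟩, rfl⟩
    exact (joined_ctr h1 hm hc.1).trans (joined_ctr h2 hm hc.2).symm
  rcases he with ⟨h1, h2⟩ | ⟨h1, h2⟩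
  · subst h1 h2
    exact key (e.1, e.2.1, false) e.2.2 hf hg
  · subst h1 h2
    exact (key (e.1, e.2.1, false) e.2.2 hg hf).symm

theorem isPathConnected_reg {U : Finset Fc} (h : IsDom U) : IsPathConnected (reg U) := by
  obtain ⟨f0, hf0⟩ := h.ne
  refine ⟨ctr f0, ocell_subset_reg hf0 (ctr_mem f0), ?_⟩
  intro z hz
  obtain ⟨f, hf, hzf⟩ := mem_creg.1 (reg_subset_creg U hz)
  have h1 := h.conn f0 hf0 f hf
  have h2 : f ∈ U ∧ JoinedIn (reg U) (ctr f0) (ctr f) := by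
    clear hzf hf
    induction h1 with
    | refl => exact ⟨hf0, JoinedIn.refl (ocell_subset_reg hf0 (ctr_mem f0))⟩
    | tail hab hbc ih => exact ⟨hbc.1, ih.2.trans (joined_adj ih.1 hbc.1 hbc.2)⟩
  exact h2.2.trans (joined_ctr hf hz hzf)

lemma isConnected_reg {U : Finset Fc} (h : IsDom U) : IsConnected (reg U) :=
  (isPathConnected_reg h).isConnected

end Pool.Agent.H11.UC
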