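import Pool.Agent.H7.UC.IfaceA

set_option autoImplicit false
open Set Metric Filter Topology

/-! Integer coordinates on the hexagonal lattice: `P z = 2 Re z`, `Q z = 2 Re (z conj ω)`.
Centres of faces are the integer points with `P + Q ≡ 0 mod 3`, vertices the other integer points. -/

namespace Pool.Agent.H11.UC

open Pool.Agent.H7.UC

lemma om_eq : om = ⟨1 / 2, √3 / 2⟩ := by
  unfold om
  have h : (Real.pi : ℂ) * Complex.I / 3 = ((Real.pi / 3 : ℝ) : ℂ) * Complex.I := by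
    push_cast; ring
  rw [h]
  apply Complex.ext
  · rw [Complex.exp_ofReal_mul_I_re, Real.cos_pi_div_three]
  · rw [Complex.exp_ofReal_mul_I_im, Real.sin_pi_div_three]

lemma om_re : om.re = 1 / 2 := by rw [om_eq]
lemma om_im : om.im = √3 / 2 := by rw [om_eq]

lemma s3 : √3 * √3 = (3 : ℝ) := Real.mul_self_sqrt (by norm_num)
lemma s3_pos : (0 : ℝ) < √3 := Real.sqrt_pos.2 (by norm_num)

/-- first coordinate -/
noncomputable def P (z : ℂ) : ℝ := 2 * z.re
/-- second coordinate -/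
noncomputable def Q (z : ℂ) : ℝ := z.re + √3 * z.im

lemma P_add (z w : ℂ) : P (z + w) = P z + P w := by simp [P]; ring
lemma Q_add (z w : ℂ) : Q (z + w) = Q z + Q w := by simp [Q]; ring
lemma P_sub (z w : ℂ) : P (z - w) = P z - P w := by simp [P]; ring
lemma Q_sub (z w : ℂ) : Q (z - w) = Q z - Q w := by simp [Q]; ring
lemma P_smul (t : ℝ) (z : ℂ) : P (t • z) = t * P z := by simp [P]; ring
lemma Q_smul (t : ℝ) (z : ℂ) : Q (t • z) = t * Q z := by simp [Q]; ring
lemma P_mul (t : ℝ) (z : ℂ) : P (t * z) = t * P z := by simp [P]; ring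
lemma Q_mul (t : ℝ) (z : ℂ) : Q (t * z) = t * Q z := by simp [Q]; ring

lemma continuous_P : Continuous P := by unfold P; fun_prop
lemma continuous_Q : Continuous Q := by unfold Q; fun_prop

lemma ext_PQ {z w : ℂ} (h1 : P z = P w) (h2 : Q z = Q w) : z = w := by
  have h3 : z.re = w.re := by unfold P at h1; linarith
  apply Complex.ext h3
  unfold Q at h2
  rw [h3] at h2
  have h4 := add_left_cancel h2
  exact mul_left_cancel₀ s3_pos.ne' h4

lemma Q_om (z : ℂ) : Q z = 2 * (z * (starRingEnd ℂ) om).re := by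
  rw [om_eq]; simp [Q]; ring

lemma QP_om (z : ℂ) : Q z - P z = 2 * (z * (starRingEnd ℂ) (om ^ 2)).re := by
  have h : om ^ 2 = ⟨-1 / 2, √3 / 2⟩ := by
    rw [om_eq, sq]
    apply Complex.ext
    · simp; nlinarith [s3]
    · simp; ring
  rw [h]; simp [P, Q]; ring

/-- integer coordinates of the centre -/
def cp (f : Fc) : ℤ := 2 * f.1 + f.2
def cq (f : Fc) : ℤ := f.1 + 2 * f.2

lemma P_ctr (f : Fc) : P (ctr f) = cp f := by
  simp [ctr, P, om_eq, cp]; ring
lemma Q_ctr (f : Fc) : Q (ctr f) = cq f := by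
  simp [ctr, Q, om_eq, cq]; linear_combination ((f.2 : ℝ) / 2) * s3

lemma mem_cell (z : ℂ) (f : Fc) : z ∈ cell f ↔ |P z - cp f| ≤ 1 ∧ |Q z - cq f| ≤ 1 ∧
    |(Q z - P z) - (cq f - cp f)| ≤ 1 := by
  have e0 : 2 * ((z - ctr f) * (starRingEnd ℂ) (om ^ ((0 : Fin 3) : ℕ))).re = P z - cp f := by
    rw [← P_ctr, ← P_sub]; simp [P]
  have e1 : 2 * ((z - ctr f) * (starRingEnd ℂ) (om ^ ((1 : Fin 3) : ℕ))).re = Q z - cq f := by
    rw [← Q_ctr, ← Q_sub, Q_om]; simp
  have e2 : 2 * ((z - ctr f) * (starRingEnd ℂ) (om ^ ((2 : Fin 3) : ℕ))).re =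
      (Q z - P z) - (cq f - cp f) := by
    have : ((2 : Fin 3) : ℕ) = 2 := rfl
    rw [this, ← QP_om, P_sub, Q_sub, P_ctr, Q_ctr]; ring
  unfold cell
  rw [mem_ofPred_eq, Fin.forall_fin_succ, Fin.forall_fin_succ, Fin.forall_fin_succ]
  simp only [IsEmpty.forall_iff, and_true]
  have k : ∀ a b : ℝ, 2 * a = b → (|a| ≤ 1 / 2 ↔ |b| ≤ 1) := by
    rintro a b rfl
    rw [abs_mul, abs_two]
    constructor <;> intro h <;> linarith
  rw [k _ _ e0]
  have e1' : 2 * ((z - ctr f) * (starRingEnd ℂ) (om ^ ((Fin.succ (0 : Fin 2) : Fin 3) : ℕ))).re = Q z - cq f := e1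
  have e2' : 2 * ((z - ctr f) * (starRingEnd ℂ) (om ^ ((Fin.succ (Fin.succ (0 : Fin 1)) : Fin 3) : ℕ))).re =
      (Q z - P z) - (cq f - cp f) := e2
  rw [k _ _ e1', k _ _ e2']

/-- integer coordinates of a vertex -/
def vp : Vx → ℤ
  | (i, j, false) => 2 * i + j + 1
  | (i, j, true) => 2 * i + j + 2
def vq : Vx → ℤ
  | (i, j, false) => i + 2 * j + 1
  | (i, j, true) => i + 2 * j + 2

lemma P_third (z : ℂ) : P (z / 3) = P z / 3 := by simp [P]; ring
lemma Q_third (z : ℂ) : Q (z / 3) = Q z / 3 := by simp [Q]; ring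

lemma P_pv (v : Vx) : P (pv v) = vp v := by
  obtain ⟨i, j, b⟩ := v
  unfold pv
  rw [P_third, P_add, P_add, P_ctr, P_ctr, P_ctr]
  cases b <;> simp [fc, cp, vp] <;> ring
lemma Q_pv (v : Vx) : Q (pv v) = vq v := by
  obtain ⟨i, j, b⟩ := v
  unfold pv
  rw [Q_third, Q_add, Q_add, Q_ctr, Q_ctr, Q_ctr]
  cases b <;> simp [fc, cq, vq] <;> ring

lemma pv_inj : Function.Injective pv := by
  intro v w h
  have h1 : vp v = vp w := by exact_mod_cast (P_pv v).symm.trans ((congrArg P h).trans (P_pv w))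
  have h2 : vq v = vq w := by exact_mod_cast (Q_pv v).symm.trans ((congrArg Q h).trans (Q_pv w))
  obtain ⟨i, j, b⟩ := v
  obtain ⟨i', j', b'⟩ := w
  cases b <;> cases b' <;> simp only [vp, vq] at h1 h2
  · obtain rfl : i = i' := by omega
    obtain rfl : j = j' := by omega
    rfl
  · omega
  · omega
  · obtain rfl : i = i' := by omega
    obtain rfl : j = j' := by omega
    rfl

end Pool.Agent.H11.UC
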